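import Pool.Agent.H655.GM.Mod

/-!
Countable atlases (codes of topological manifolds) and their points.
-/

set_option linter.unusedSectionVars false

open Set Filter Topology

namespace Pool.Agent.H655.GM

/-- A code of a topological manifold modelled on `E`: the open sets `V i i` of `E` are the charts,
and `φ i j : V i j → V j i` are the gluing homeomorphisms between open subsets. -/
structure Code (E : Type) [MetricSpace E] [ProperSpace E] [Mod E] where
  V : ℕ → ℕ → Set E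
  φ : ℕ → ℕ → E → E
  isOpen : ∀ i j, IsOpen (V i j)
  sub : ∀ i j, V i j ⊆ V i i
  refl : ∀ i, ∀ x ∈ V i i, φ i i x = x
  cocycle : ∀ i j k, ∀ x ∈ V i j, x ∈ V i k →
    φ i j x ∈ V j k ∧ φ j k (φ i j x) = φ i k x
  cont : ∀ i j, ContinuousOn (φ i j) (V i j)
  off : ∀ i j, ∀ x, x ∉ V i j → φ i j x = x0
  haus : ∀ i j, ∀ x ∈ V i i, ∀ y ∈ V j j, ¬ (x ∈ V i j ∧ φ i j x = y) →
    ∀ᶠ p : E × E in 𝓝 (x, y), ¬ (p.1 ∈ V i j ∧ φ i j p.1 = p.2)

/-- The type in which the points of all coded manifolds live. -/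
abbrev Pt (E : Type) : Type := Set (ℕ × E)

variable {E : Type} [MetricSpace E] [ProperSpace E] [Mod E]

/-- The point of the coded manifold given by the point `x` of the chart `i`. -/
def cls (c : Code E) (i : ℕ) (x : E) : Pt E := {p | x ∈ c.V i p.1 ∧ c.φ i p.1 x = p.2}

/-- The set of points of the coded manifold. -/
def M (c : Code E) : Set (Pt E) := {z | ∃ i, ∃ x ∈ c.V i i, z = cls c i x}

theorem Code.inv (c : Code E) {i j : ℕ} {x : E} (hx : x ∈ c.V i j) :
    c.φ i j x ∈ c.V j i ∧ c.φ j i (c.φ i j x) = x := by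
  have h := c.cocycle i j i x hx (c.sub i j hx)
  rw [c.refl i x (c.sub i j hx)] at h
  exact h

theorem Code.φ_mem (c : Code E) {i j : ℕ} {x : E} (hx : x ∈ c.V i j) : c.φ i j x ∈ c.V j j :=
  c.sub j i (c.inv hx).1

theorem Code.trans_mem (c : Code E) {i j k : ℕ} {x : E} (hx : x ∈ c.V i j)
    (hy : c.φ i j x ∈ c.V j k) : x ∈ c.V i k ∧ c.φ j k (c.φ i j x) = c.φ i k x := by
  have h := c.inv hx
  have h2 := c.cocycle j i k (c.φ i j x) h.1 hy
  rw [h.2] at h2
  exact ⟨h2.1, h2.2.symm⟩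

theorem mem_cls_self {c : Code E} {i : ℕ} {x : E} (hx : x ∈ c.V i i) : (i, x) ∈ cls c i x :=
  ⟨hx, c.refl i x hx⟩

theorem cls_mem_M {c : Code E} {i : ℕ} {x : E} (hx : x ∈ c.V i i) : cls c i x ∈ M c :=
  ⟨i, x, hx, rfl⟩

theorem cls_φ {c : Code E} {i j : ℕ} {x : E} (hx : x ∈ c.V i j) :
    cls c i x = cls c j (c.φ i j x) := by
  ext ⟨k, z⟩
  constructor
  · rintro ⟨h1, h2⟩
    have h := c.cocycle i j k x hx h1
    exact ⟨h.1, h.2.trans h2⟩
  · rintro ⟨h1, h2⟩
    have h := c.trans_mem hx h1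
    exact ⟨h.1, h.2.symm.trans h2⟩

theorem cls_eq_iff {c : Code E} {i j : ℕ} {x y : E} (hy : y ∈ c.V j j) :
    cls c i x = cls c j y ↔ x ∈ c.V i j ∧ c.φ i j x = y := by
  constructor
  · intro h
    have h1 : (j, y) ∈ cls c i x := by
      rw [h]
      exact mem_cls_self hy
    exact h1
  · rintro ⟨h1, h2⟩
    rw [cls_φ h1, h2]

theorem cls_inj {c : Code E} {i : ℕ} {x y : E} (hx : x ∈ c.V i i) (hy : y ∈ c.V i i)
    (h : cls c i x = cls c i y) : x = y := by
  rw [cls_eq_iff hy] at h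
  rw [← h.2, c.refl i x hx]

theorem mem_iff {c : Code E} {z : Pt E} (hz : z ∈ M c) (q : ℕ × E) :
    q ∈ z ↔ q.2 ∈ c.V q.1 q.1 ∧ z = cls c q.1 q.2 := by
  obtain ⟨i, x, hx, rfl⟩ := hz
  constructor
  · rintro ⟨h1, h2⟩
    have h3 := c.φ_mem h1
    rw [h2] at h3
    refine ⟨h3, ?_⟩
    rw [cls_φ h1, h2]
  · rintro ⟨h1, h2⟩
    rw [h2]
    exact mem_cls_self h1

open Classical in
/-- The coordinate of a point in the chart `i`. -/
noncomputable def coord (i : ℕ) (z : Pt E) : E := if h : ∃ y, (i, y) ∈ z then h.choose else x0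

theorem coord_cls {c : Code E} {i : ℕ} {x : E} (hx : x ∈ c.V i i) : coord i (cls c i x) = x := by
  have h : ∃ y, (i, y) ∈ cls c i x := ⟨x, mem_cls_self hx⟩
  have h2 : (i, h.choose) ∈ cls c i x := h.choose_spec
  have h3 : coord i (cls c i x) = h.choose := by
    unfold coord
    rw [dif_pos h]
  have h4 : c.φ i i x = h.choose := h2.2
  rw [h3, ← h4]
  exact c.refl i x hx

theorem coord_mem {c : Code E} {i : ℕ} {z : Pt E} (hz : z ∈ M c) (h : ∃ y, (i, y) ∈ z) :
    coord i z ∈ c.V i i ∧ z = cls c i (coord i z) := by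
  obtain ⟨y, hy⟩ := h
  have h1 := (mem_iff hz (i, y)).1 hy
  have h2 : coord i z = y := by
    rw [h1.2]
    exact coord_cls h1.1
  rw [h2]
  exact h1

theorem Code.continuousAt (c : Code E) {i j : ℕ} {x : E} (hx : x ∈ c.V i j) :
    ContinuousAt (c.φ i j) x :=
  (c.cont i j).continuousAt ((c.isOpen i j).mem_nhds hx)

theorem Code.oe (c : Code E) (i j : ℕ) : EK.OE (c.φ i j) (c.V i j) := by
  refine ⟨c.isOpen i j, c.cont i j, ?_, ?_⟩
  · intro x hx y hy h
    rw [← (c.inv hx).2, h, (c.inv hy).2]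
  · intro U hU ho
    have : c.φ i j '' U = c.V j i ∩ c.φ j i ⁻¹' U := by
      ext y
      constructor
      · rintro ⟨x, hx, rfl⟩
        refine ⟨(c.inv (hU hx)).1, ?_⟩
        show c.φ j i (c.φ i j x) ∈ U
        rw [(c.inv (hU hx)).2]
        exact hx
      · rintro ⟨hy, hyU⟩
        exact ⟨c.φ j i y, hyU, (c.inv hy).2⟩
    rw [this]
    exact (c.cont j i).isOpen_inter_preimage (c.isOpen j i) ho

end Pool.Agent.H655.GM
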