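import Pool.Agent.H655.GM.Code

/-!
Continuous convergence of families of local homeomorphisms.
-/

set_option linter.unusedSectionVars false

open Set Filter Topology

namespace Pool.Agent.H655.GM

open EK (OE)

variable {κ : Type} {E : Type} [MetricSpace E] [ProperSpace E] [Mod E]

theorem ev_ev {X : Type} [TopologicalSpace X] {l : Filter κ} {x : X} {P : κ × X → Prop}
    (h : ∀ᶠ p in l ×ˢ 𝓝 x, P p) : ∀ᶠ p in l ×ˢ 𝓝 x, ∀ᶠ x' in 𝓝 p.2, P (p.1, x') := by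
  rw [Filter.eventually_prod_iff] at h ⊢
  obtain ⟨pa, ha, pb, hb, h⟩ := h
  refine ⟨pa, ha, fun x' => ∀ᶠ x'' in 𝓝 x', pb x'', hb.eventually_nhds, ?_⟩
  intro k hk x' hx'
  filter_upwards [hx'] with x'' hx''
  exact h hk hx''

theorem ev_self {X : Type} [TopologicalSpace X] {l : Filter κ} {x : X} {P : κ × X → Prop}
    (h : ∀ᶠ p in l ×ˢ 𝓝 x, P p) : ∀ᶠ k in l, P (k, x) := by
  rw [Filter.eventually_prod_iff] at h
  obtain ⟨pa, ha, pb, hb, h⟩ := h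
  filter_upwards [ha] with k hk
  exact h hk hb.self_of_nhds

theorem ev_snd {X : Type} [TopologicalSpace X] {l : Filter κ} {x : X} {P : X → Prop}
    (h : ∀ᶠ y in 𝓝 x, P y) : ∀ᶠ p in l ×ˢ 𝓝 x, P p.2 :=
  (tendsto_snd (f := l) (g := 𝓝 x)).eventually h

theorem ev_fst {X : Type} [TopologicalSpace X] {l : Filter κ} {x : X} {P : κ → Prop}
    (h : ∀ᶠ k in l, P k) : ∀ᶠ p in l ×ˢ 𝓝 x, P p.1 :=
  (tendsto_fst (f := l) (g := 𝓝 x)).eventually h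

/-- From joint neighbourhoods to an open set which works for eventually all indices. -/
theorem ev_unif {X : Type} [TopologicalSpace X] {l : Filter κ} {x : X} {P : κ × X → Prop}
    (h : ∀ᶠ p in l ×ˢ 𝓝 x, P p) :
    ∃ W, IsOpen W ∧ x ∈ W ∧ ∀ᶠ k in l, ∀ y ∈ W, P (k, y) := by
  rw [Filter.eventually_prod_iff] at h
  obtain ⟨pa, ha, pb, hb, h⟩ := h
  obtain ⟨W, hW, hWo, hxW⟩ := mem_nhds_iff.1 hb
  refine ⟨W, hWo, hxW, ?_⟩
  filter_upwards [ha] with k hk y hy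
  exact h hk (hW hy)

theorem ev_of_unif {X : Type} [TopologicalSpace X] {l : Filter κ} {x : X} {P : κ × X → Prop}
    {W : Set X} (hW : IsOpen W) (hx : x ∈ W) (h : ∀ᶠ k in l, ∀ y ∈ W, P (k, y)) :
    ∀ᶠ p in l ×ˢ 𝓝 x, P p := by
  filter_upwards [ev_fst h, ev_snd (hW.mem_nhds hx)] with p h1 h2
  exact h1 p.2 h2

/-- `u` is an open embedding of a neighbourhood of `x`. -/
def SN (u : E → E) (x : E) : Prop := ∃ W, x ∈ W ∧ OE u W

theorem SN.continuousAt {u : E → E} {x : E} (h : SN u x) : ContinuousAt u x := by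
  obtain ⟨W, hx, hW⟩ := h
  exact hW.cont.continuousAt (hW.op.mem_nhds hx)

theorem SN.tendsto {u : E → E} {x : E} (h : SN u x) : Tendsto u (𝓝 x) (𝓝 (u x)) :=
  h.continuousAt

theorem SN.ev {u : E → E} {x : E} (h : SN u x) : ∀ᶠ x' in 𝓝 x, SN u x' := by
  obtain ⟨W, hx, hW⟩ := h
  filter_upwards [hW.op.mem_nhds hx] with x' hx'
  exact ⟨W, hx', hW⟩

theorem SN.congr {u v : E → E} {x : E} (h : SN u x) (e : ∀ᶠ x' in 𝓝 x, u x' = v x') : SN v x := by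
  obtain ⟨W, hx, hW⟩ := h
  obtain ⟨N, hN, hNo, hxN⟩ := mem_nhds_iff.1 e
  refine ⟨W ∩ N, ⟨hx, hxN⟩, ?_⟩
  exact (hW.mono (hW.op.inter hNo) inter_subset_left).congr fun y hy => hN hy.2

theorem SN.comp {u : E → E} {v : E → E} {x : E} (hv : SN v (u x)) (hu : SN u x) :
    SN (v ∘ u) x := by
  obtain ⟨W, hx, hW⟩ := hu
  obtain ⟨W', hx', hW'⟩ := hv
  refine ⟨W ∩ u ⁻¹' W', ⟨hx, hx'⟩, ?_⟩
  exact hW'.comp (hW.mono (hW.cont.isOpen_inter_preimage hW.op hW'.op) inter_subset_left)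
    fun y hy => hy.2

theorem SN_id {x : E} : SN (id : E → E) x := ⟨univ, mem_univ _, EK.oe_id isOpen_univ⟩

theorem SN_homeo (h : E ≃ₜ E) {x : E} : SN h x := ⟨univ, mem_univ _, EK.oe_homeo h isOpen_univ⟩

theorem SN.map_nhds {u : E → E} {x : E} (h : SN u x) : map u (𝓝 x) = 𝓝 (u x) := by
  refine le_antisymm h.tendsto ?_
  obtain ⟨W, hx, hW⟩ := h
  intro U hU
  rw [mem_map] at hU
  obtain ⟨N, hN, hNo, hxN⟩ := mem_nhds_iff.1 hU
  refine mem_of_superset ((hW.img (W ∩ N) inter_subset_left (hW.op.inter hNo)).mem_nhds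
    ⟨x, ⟨hx, hxN⟩, rfl⟩) ?_
  rintro _ ⟨y, hy, rfl⟩
  exact hN hy.2

/-- Local inverse. -/
theorem exists_local_inverse {u : E → E} {x : E} (hu : SN u x) :
    ∃ v : E → E, SN v (u x) ∧ v (u x) = x ∧ (∀ᶠ x' in 𝓝 x, v (u x') = x') ∧
      (∀ᶠ y in 𝓝 (u x), u (v y) = y) := by
  obtain ⟨W, hx, hW⟩ := hu
  obtain ⟨v, hv1, hv2, hv3⟩ := hW.symm
  refine ⟨v, ⟨u '' W, mem_image_of_mem u hx, hv1⟩, hv2 x hx, ?_, ?_⟩
  · filter_upwards [hW.op.mem_nhds hx] with y hy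
    exact hv2 y hy
  · filter_upwards [hW.isOpen_image.mem_nhds (mem_image_of_mem u hx)] with y hy
    exact (hv3 y hy).2

/-- If a continuous map has a continuous local inverse, it is a local homeomorphism. -/
theorem SN_of_inv {u v : E → E} {x : E} (hu : ∀ᶠ x' in 𝓝 x, ContinuousAt u x')
    (hv : ∀ᶠ y in 𝓝 (u x), ContinuousAt v y)
    (h1 : ∀ᶠ x' in 𝓝 x, v (u x') = x') (h2 : ∀ᶠ y in 𝓝 (u x), u (v y) = y) : SN u x := by
  obtain ⟨A, hA, hAo, hxA⟩ := mem_nhds_iff.1 (hu.and h1)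
  obtain ⟨B, hB, hBo, hxB⟩ := mem_nhds_iff.1 (hv.and h2)
  have hcu : ContinuousOn u A := fun y hy => (hA hy).1.continuousWithinAt
  have hcv : ContinuousOn v B := fun y hy => (hB hy).1.continuousWithinAt
  refine ⟨A ∩ u ⁻¹' B, ⟨hxA, hxB⟩, ⟨hcu.isOpen_inter_preimage hAo hBo,
    hcu.mono inter_subset_left, ?_, ?_⟩⟩
  · intro y hy z hz h
    rw [← (hA hy.1).2, h, (hA hz.1).2]
  · intro U hU ho
    have : u '' U = B ∩ v ⁻¹' U := by
      ext y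
      constructor
      · rintro ⟨z, hz, rfl⟩
        refine ⟨(hU hz).2, ?_⟩
        show v (u z) ∈ U
        rw [(hA (hU hz).1).2]
        exact hz
      · rintro ⟨hy, hyU⟩
        exact ⟨v y, hyU, (hB hy).2⟩
    rw [this]
    exact hcv.isOpen_inter_preimage hBo ho

/-- Continuous convergence at `x` of local homeomorphisms, uniformly near `x`. -/
structure CS (l : Filter κ) (u : κ → E → E) (u₀ : E → E) (x : E) : Prop where
  unif : ∃ W, x ∈ W ∧ OE u₀ W ∧ ∀ᶠ k in l, OE (u k) W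
  val : Tendsto (fun p : κ × E => u p.1 p.2) (l ×ˢ 𝓝 x) (𝓝 (u₀ x))

theorem CS.sn {l : Filter κ} {u : κ → E → E} {u₀ : E → E} {x : E} (h : CS l u u₀ x) :
    SN u₀ x := by
  obtain ⟨W, hx, hW, _⟩ := h.unif
  exact ⟨W, hx, hW⟩

theorem CS.ev {l : Filter κ} {u : κ → E → E} {u₀ : E → E} {x : E} (h : CS l u u₀ x) :
    ∀ᶠ p in l ×ˢ 𝓝 x, SN (u p.1) p.2 := by
  obtain ⟨W, hx, hW, hk⟩ := h.unif
  filter_upwards [ev_fst hk, ev_snd (hW.op.mem_nhds hx)] with p h1 h2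
  exact ⟨W, h2, h1⟩

theorem CS.lift {l : Filter κ} {u : κ → E → E} {u₀ : E → E} {x : E} (h : CS l u u₀ x) :
    Tendsto (fun p : κ × E => (p.1, u p.1 p.2)) (l ×ˢ 𝓝 x) (l ×ˢ 𝓝 (u₀ x)) :=
  tendsto_fst.prodMk h.val

/-- Two points near `x` with the same image under some member of the family coincide. -/
theorem CS.inj {l : Filter κ} {u : κ → E → E} {u₀ : E → E} {x : E} (h : CS l u u₀ x) :
    ∀ᶠ p in (l ×ˢ 𝓝 x) ×ˢ 𝓝 x, u p.1.1 p.1.2 = u p.1.1 p.2 → p.1.2 = p.2 := by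
  obtain ⟨W, hx, hW, hk⟩ := h.unif
  have h1 : ∀ᶠ p in (l ×ˢ 𝓝 x) ×ˢ 𝓝 x, OE (u p.1.1) W :=
    (tendsto_fst.comp tendsto_fst).eventually hk
  have h2 : ∀ᶠ p in (l ×ˢ 𝓝 x) ×ˢ 𝓝 x, p.1.2 ∈ W :=
    (tendsto_snd.comp tendsto_fst).eventually (hW.op.mem_nhds hx)
  have h3 : ∀ᶠ p in (l ×ˢ 𝓝 x) ×ˢ 𝓝 x, p.2 ∈ W :=
    tendsto_snd.eventually (hW.op.mem_nhds hx)
  filter_upwards [h1, h2, h3] with p a1 a2 a3 a4
  exact a1.inj a2 a3 a4

theorem CS.congr {l : Filter κ} {u v : κ → E → E} {u₀ v₀ : E → E} {x : E} (h : CS l u u₀ x)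
    (h1 : ∀ᶠ p in l ×ˢ 𝓝 x, u p.1 p.2 = v p.1 p.2) (h2 : ∀ᶠ x' in 𝓝 x, u₀ x' = v₀ x') :
    CS l v v₀ x := by
  obtain ⟨W, hx, hW, hk⟩ := h.unif
  obtain ⟨N, hNo, hxN, hN⟩ := ev_unif h1
  obtain ⟨N', hN', hNo', hxN'⟩ := mem_nhds_iff.1 h2
  refine ⟨⟨W ∩ (N ∩ N'), ⟨hx, hxN, hxN'⟩, ?_, ?_⟩, ?_⟩
  · exact (hW.mono (hW.op.inter (hNo.inter hNo')) inter_subset_left).congr
      fun y hy => hN' hy.2.2
  · filter_upwards [hk, hN] with k k1 k2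
    exact (k1.mono (hW.op.inter (hNo.inter hNo')) inter_subset_left).congr
      fun y hy => k2 y hy.2.1
  · have h3 : u₀ x = v₀ x := h2.self_of_nhds
    rw [← h3]
    exact h.val.congr' h1

theorem CS.comp {l : Filter κ} {u : κ → E → E} {u₀ : E → E} {x : E} {v : κ → E → E}
    {v₀ : E → E} (hv : CS l v v₀ (u₀ x)) (hu : CS l u u₀ x) :
    CS l (fun k => v k ∘ u k) (v₀ ∘ u₀) x := by
  obtain ⟨W, hx, hW, hk⟩ := hu.unif
  obtain ⟨W', hx', hW', hk'⟩ := hv.unif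
  have h1 : ∀ᶠ p in l ×ˢ 𝓝 x, u p.1 p.2 ∈ W' := hu.val.eventually (hW'.op.mem_nhds hx')
  obtain ⟨N, hNo, hxN, hN⟩ := ev_unif h1
  refine ⟨⟨(W ∩ u₀ ⁻¹' W') ∩ N, ⟨⟨hx, hx'⟩, hxN⟩, ?_, ?_⟩, ?_⟩
  · exact hW'.comp (hW.mono ((hW.cont.isOpen_inter_preimage hW.op hW'.op).inter hNo)
      fun y hy => hy.1.1) fun y hy => hy.1.2
  · filter_upwards [hk, hk', hN] with k k1 k2 k3
    exact k2.comp (k1.mono ((hW.cont.isOpen_inter_preimage hW.op hW'.op).inter hNo)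
      fun y hy => hy.1.1) fun y hy => k3 y hy.2
  · exact hv.val.comp hu.lift

theorem CS_const {l : Filter κ} {u₀ : E → E} {x : E} (h : SN u₀ x) :
    CS l (fun _ => u₀) u₀ x := by
  obtain ⟨W, hx, hW⟩ := id h
  exact ⟨⟨W, hx, hW, Filter.Eventually.of_forall fun _ => hW⟩, h.tendsto.comp tendsto_snd⟩

theorem CS_id {l : Filter κ} {x : E} : CS l (fun _ => (id : E → E)) id x :=
  CS_const SN_id

end Pool.Agent.H655.GM
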