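import Pool.Agent.H655.GM.Fam

/-!
Local homeomorphisms between coded manifolds.
-/

set_option linter.unusedSectionVars false

open Set Filter Topology

namespace Pool.Agent.H655.GM

variable {κ : Type} {E : Type} [MetricSpace E] [ProperSpace E] [Mod E]

/-- Local homeomorphism, in charts. -/
structure LK (d c : Code E) (e : Pt E → Pt E) (q : ℕ × E) (i : ℕ) : Prop where
  src : q.2 ∈ d.V q.1 q.1
  ev0 : ∀ᶠ x in 𝓝 q.2, e (cls d q.1 x) = cls c i (rp e d q.1 i x) ∧ rp e d q.1 i x ∈ c.V i i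
  sn : SN (rp e d q.1 i) q.2

variable {d c : Code E} {e : Pt E → Pt E} {q : ℕ × E} {i : ℕ}

theorem LK.of (hq : q.2 ∈ d.V q.1 q.1) (u : E → E) (h0 : u q.2 ∈ c.V i i)
    (h1 : ∀ᶠ x in 𝓝 q.2, e (cls d q.1 x) = cls c i (u x)) (h2 : SN u q.2) : LK d c e q i := by
  have h5 : ∀ᶠ x in 𝓝 q.2, u x ∈ c.V i i :=
    h2.tendsto.eventually ((c.isOpen i i).mem_nhds h0)
  have h6 : ∀ᶠ x in 𝓝 q.2, u x = rp e d q.1 i x := by
    filter_upwards [h1, h5] with x a b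
    exact (rp_eq b a).symm
  refine ⟨hq, ?_, h2.congr h6⟩
  filter_upwards [h1, h5, h6] with x a b c
  rw [← c]
  exact ⟨a, b⟩

theorem LK.source (h : LK d c e q i) {j' : ℕ} {y : E} (hy : y ∈ d.V j' j')
    (he : cls d j' y = cls d q.1 q.2) : LK d c e (j', y) i := by
  rw [cls_eq_iff h.src] at he
  have hsn := d.SN he.1
  have h1 : SN (rp e d q.1 i) (d.φ j' q.1 y) := by
    rw [he.2]
    exact h.sn
  refine LK.of hy (rp e d q.1 i ∘ d.φ j' q.1) ?_ ?_ (h1.comp hsn)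
  · show rp e d q.1 i (d.φ j' q.1 y) ∈ c.V i i
    rw [he.2]
    exact h.ev0.self_of_nhds.2
  · have h3 : Tendsto (d.φ j' q.1) (𝓝 y) (𝓝 q.2) := by
      have := hsn.tendsto
      rwa [he.2] at this
    filter_upwards [h3.eventually h.ev0, (d.isOpen j' q.1).mem_nhds he.1] with x a b
    show e (cls d j' x) = cls c i (rp e d q.1 i (d.φ j' q.1 x))
    rw [cls_φ b]
    exact a.1

theorem LK.target (h : LK d c e q i) {i' : ℕ} {y : E} (hy : y ∈ c.V i' i')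
    (he : e (cls d q.1 q.2) = cls c i' y) : LK d c e q i' := by
  have h0 := h.ev0.self_of_nhds
  rw [h0.1, cls_eq_iff hy] at he
  have hsn := c.SN he.1
  refine LK.of h.src (c.φ i i' ∘ rp e d q.1 i) ?_ ?_ (hsn.comp h.sn)
  · show c.φ i i' (rp e d q.1 i q.2) ∈ c.V i' i'
    rw [he.2]
    exact hy
  · have h4 := h.sn.tendsto.eventually ((c.isOpen i i').mem_nhds he.1)
    filter_upwards [h4, h.ev0] with x a b
    show e (cls d q.1 x) = cls c i' (c.φ i i' (rp e d q.1 i x))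
    rw [← cls_φ a]
    exact b.1

/-- `e` is a local homeomorphism at the point `z`. -/
def LD (d c : Code E) (e : Pt E → Pt E) (z : Pt E) : Prop :=
  z ∈ M d ∧ ∃ q ∈ z, ∃ i, LK d c e q i

theorem LD.mem_tgt {z : Pt E} (h : LD d c e z) : e z ∈ M c := by
  obtain ⟨hz, q, hq, i, h⟩ := h
  have h0 := h.ev0.self_of_nhds
  rw [((mem_iff hz q).1 hq).2, h0.1]
  exact cls_mem_M h0.2

theorem LD.at {z : Pt E} (h : LD d c e z) (hq : q ∈ z) {q' : ℕ × E} (hq' : q' ∈ e z) :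
    LK d c e q q'.1 := by
  have hm := h.mem_tgt
  obtain ⟨hz, p, hp, i, h⟩ := h
  have h1 := (mem_iff hz q).1 hq
  have h2 := (mem_iff hz p).1 hp
  have h3 := (mem_iff hm q').1 hq'
  have h4 := LK.source h h1.1 (h1.2.symm.trans h2.2)
  refine LK.target h4 h3.1 ?_
  show e (cls d q.1 q.2) = _
  rw [← h1.2]
  exact h3.2

theorem LD.rp_eq {z : Pt E} (h : LD d c e z) (hq : q ∈ z) {q' : ℕ × E} (hq' : q' ∈ e z) :
    rp e d q.1 q'.1 q.2 = q'.2 := by
  have hm := h.mem_tgt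
  have h3 := (mem_iff hm q').1 hq'
  have h1 := (mem_iff h.1 q).1 hq
  refine GM.rp_eq h3.1 ?_
  rw [← h1.2]
  exact h3.2

theorem LK.ld (h : LK d c e q i) : LD d c e (cls d q.1 q.2) :=
  ⟨cls_mem_M h.src, q, mem_cls_self h.src, i, h⟩

theorem LD.congr {e' : Pt E → Pt E} {z : Pt E} (h : LD d c e z)
    (h1 : ∀ᶠ z' in nh d z, e z' = e' z') : LD d c e' z := by
  obtain ⟨hz, q, hq, i, h⟩ := h
  refine ⟨hz, q, hq, i, ?_⟩
  have hzq := (mem_iff hz q).1 hq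
  rw [hzq.2, ev_nh hzq.1] at h1
  refine LK.of h.src _ h.ev0.self_of_nhds.2 ?_ h.sn
  filter_upwards [h1, h.ev0] with x a b
  rw [← a]
  exact b.1

theorem LD.tendsto {z : Pt E} (h : LD d c e z) : Tendsto e (nh d z) (nh c (e z)) := by
  obtain ⟨q, hq⟩ := exists_mem h.1
  obtain ⟨q', hq'⟩ := exists_mem h.mem_tgt
  have h1 := h.at hq hq'
  have h3 := h.rp_eq hq hq'
  have h4 : Tendsto (rp e d q.1 q'.1) (𝓝 q.2) (𝓝 q'.2) := by
    have := h1.sn.tendsto
    rwa [h3] at this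
  rw [nh_eq h.1 hq, nh_eq h.mem_tgt hq', tendsto_map'_iff]
  have h5 : Tendsto (fun x => cls c q'.1 (rp e d q.1 q'.1 x)) (𝓝 q.2)
      (map (cls c q'.1) (𝓝 q'.2)) := tendsto_map.comp h4
  refine h5.congr' ?_
  filter_upwards [h1.ev0] with x hx
  exact hx.1.symm

theorem LD.comp {b : Code E} {f : Pt E → Pt E} {z : Pt E} (hf : LD c b f (e z))
    (h : LD d c e z) : LD d b (f ∘ e) z := by
  obtain ⟨q, hq⟩ := exists_mem h.1
  obtain ⟨q', hq'⟩ := exists_mem h.mem_tgt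
  obtain ⟨q'', hq''⟩ := exists_mem hf.mem_tgt
  have h1 := h.at hq hq'
  have h2 := hf.at hq' hq''
  have h3 := h.rp_eq hq hq'
  have h4 := hf.rp_eq hq' hq''
  have h5 : SN (rp f c q'.1 q''.1) (rp e d q.1 q'.1 q.2) := by
    rw [h3]
    exact h2.sn
  refine ⟨h.1, q, hq, q''.1, ?_⟩
  refine LK.of h1.src (rp f c q'.1 q''.1 ∘ rp e d q.1 q'.1) ?_ ?_ (h5.comp h1.sn)
  · show rp f c q'.1 q''.1 (rp e d q.1 q'.1 q.2) ∈ b.V q''.1 q''.1
    rw [h3, h4]
    exact ((mem_iff hf.mem_tgt q'').1 hq'').1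
  · have h7 : Tendsto (rp e d q.1 q'.1) (𝓝 q.2) (𝓝 q'.2) := by
      have := h1.sn.tendsto
      rwa [h3] at this
    filter_upwards [h7.eventually h2.ev0, h1.ev0] with x a b
    show f (e (cls d q.1 x)) = _
    rw [b.1]
    exact a.1

theorem LD_id {z : Pt E} (hz : z ∈ M d) : LD d d id z := by
  obtain ⟨q, hq⟩ := exists_mem hz
  have h1 := (mem_iff hz q).1 hq
  refine ⟨hz, q, hq, q.1, LK.of h1.1 id h1.1 ?_ SN_id⟩
  exact Filter.Eventually.of_forall fun x => rfl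

theorem LD.ev {z : Pt E} (h : LD d c e z) : ∀ᶠ z' in nh d z, LD d c e z' := by
  obtain ⟨hz, q, hq, i, h⟩ := h
  have hzq := (mem_iff hz q).1 hq
  rw [hzq.2, ev_nh hzq.1]
  filter_upwards [(d.isOpen q.1 q.1).mem_nhds hzq.1, h.ev0.eventually_nhds, h.sn.ev]
    with y a1 a2 a3
  have : LK d c e (q.1, y) i := ⟨a1, a2, a3⟩
  exact this.ld

theorem LD.map_nh {z : Pt E} (h : LD d c e z) : map e (nh d z) = nh c (e z) := by
  obtain ⟨q, hq⟩ := exists_mem h.1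
  obtain ⟨q', hq'⟩ := exists_mem h.mem_tgt
  have h1 := h.at hq hq'
  have h3 := h.rp_eq hq hq'
  have h4 := h1.sn.map_nhds
  rw [h3] at h4
  rw [nh_eq h.1 hq, nh_eq h.mem_tgt hq', ← h4, Filter.map_map, Filter.map_map]
  refine Filter.map_congr ?_
  filter_upwards [h1.ev0] with x hx
  exact hx.1

/-- A left inverse of a local homeomorphism is a local homeomorphism. -/
theorem LD.inverse {z : Pt E} (h : LD d c e z) {g : Pt E → Pt E}
    (hg : ∀ᶠ z' in nh d z, g (e z') = z') : LD c d g (e z) := by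
  obtain ⟨q, hq⟩ := exists_mem h.1
  obtain ⟨q', hq'⟩ := exists_mem h.mem_tgt
  have h1 := h.at hq hq'
  have h3 := h.rp_eq hq hq'
  obtain ⟨v, v1, v2, v3, v4⟩ := exists_local_inverse h1.sn
  rw [h3] at v1 v2 v4
  have hq2 := (mem_iff h.1 q).1 hq
  have hq2' := (mem_iff h.mem_tgt q').1 hq'
  have hv : Tendsto v (𝓝 q'.2) (𝓝 q.2) := by
    have := v1.tendsto
    rwa [v2] at this
  refine ⟨h.mem_tgt, q', hq', q.1, LK.of hq2'.1 v ?_ ?_ v1⟩
  · rw [v2]
    exact h1.src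
  · rw [hq2.2, ev_nh hq2.1] at hg
    filter_upwards [hv.eventually hg, hv.eventually h1.ev0, v4] with y a1 a2 a3
    rw [a2.1, a3] at a1
    exact a1

end Pool.Agent.H655.GM
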