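import Pool.Agent.H655.GM.Mfd

/-!
Borel measurability of the attached structure.
-/

set_option linter.unusedSectionVars false

open Set Filter Topology
open scoped MeasureTheory

namespace Pool.Agent.H655.GM

variable {E : Type} [MetricSpace E] [ProperSpace E] [Mod E]

/-- The generating sets of the Borel structure on the space of codes: the conditions that a compact
set lies in a gluing domain, and that the value of a gluing map at a point lies in a Borel set. -/
def genC (E : Type) [MetricSpace E] [ProperSpace E] [Mod E] : Set (Set (Code E)) :=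
  {A | ∃ (i j : ℕ) (S : Set E), IsCompact S ∧ A = {c | S ⊆ c.V i j}} ∪
  {A | ∃ (i j : ℕ) (x : E) (B : Set E), MeasurableSet[borel E] B ∧ A = {c | c.φ i j x ∈ B}}

/-- The Borel structure on the space of codes. -/
instance measC : MeasurableSpace (Code E) := MeasurableSpace.generateFrom (genC E)

theorem meas_compact (i j : ℕ) {S : Set E} (hS : IsCompact S) :
    MeasurableSet {c : Code E | S ⊆ c.V i j} :=
  MeasurableSpace.measurableSet_generateFrom (Or.inl ⟨i, j, S, hS, rfl⟩)

theorem meas_val (i j : ℕ) (x : E) {B : Set E} (hB : MeasurableSet[borel E] B) :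
    MeasurableSet {c : Code E | c.φ i j x ∈ B} :=
  MeasurableSpace.measurableSet_generateFrom (Or.inr ⟨i, j, x, B, hB, rfl⟩)

theorem meas_mem (i j : ℕ) (x : E) : MeasurableSet {c : Code E | x ∈ c.V i j} := by
  have h := meas_compact (E := E) i j (S := {x}) isCompact_singleton
  simpa using h

theorem meas_phi (i j : ℕ) (x : E) : Measurable[measC, borel E] (fun c : Code E => c.φ i j x) := by
  intro B hB
  exact meas_val i j x hB



/-- Density of the rational points in a rational ball. -/
theorem cb_sub_closure (b : ℕ × ℕ × ℕ) :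
    (cb b : Set E) ⊆ closure (range (TopologicalSpace.denseSeq E) ∩ ob b) := by
  have h1 : (ob b : Set E) ⊆ closure (range (TopologicalSpace.denseSeq E) ∩ ob b) := by
    have := (TopologicalSpace.denseRange_denseSeq E).open_subset_closure_inter (ob_open (E := E) b)
    rwa [inter_comm] at this
  have h2 : (cb b : Set E) ⊆ closure (ob b) := Mod.clo _ _ (by positivity)
  exact h2.trans (closure_minimal h1 isClosed_closure)

theorem exists_dense_near {b : ℕ × ℕ × ℕ} {x : E} (hx : x ∈ (cb b : Set E)) {P : E → Prop}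
    (h : ∀ᶠ y in 𝓝 x, P y) :
    ∃ n, TopologicalSpace.denseSeq E n ∈ (ob b : Set E) ∧ P (TopologicalSpace.denseSeq E n) := by
  have h1 := mem_closure_iff_nhds.1 (cb_sub_closure b hx) _ h
  obtain ⟨y, hy, ⟨n, rfl⟩, hyb⟩ := h1
  exact ⟨n, hyb, hy⟩

theorem SA_meas (i j : ℕ) (b b₂ : ℕ × ℕ × ℕ) :
    MeasurableSet (SA i j b b₂ : Set (Code E)) := by
  set D := TopologicalSpace.denseSeq E with hD
  have hset : (SA i j b b₂ : Set (Code E)) = {c : Code E | (cb b : Set E) ⊆ c.V i j} ∩
      (⋂ k, {c : Code E | D k ∈ (ob b : Set E) → c.φ i j (D k) ∈ (cb b₂ : Set E)}) := by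
    ext c
    simp only [mem_inter_iff, mem_iInter, mem_ofPred_eq]
    constructor
    · rintro ⟨h1, h2⟩
      exact ⟨h1, fun k hk => h2 _ (ob_sub_cb b hk)⟩
    · rintro ⟨h1, h2⟩
      have hcont : ∀ x ∈ (cb b : Set E), ContinuousAt (c.φ i j) x := fun x hx =>
        (c.continuousAt (h1 hx))
      refine ⟨h1, ?_⟩
      intro x hx
      by_contra hn
      have h4 : ∀ᶠ y in 𝓝 x, c.φ i j y ∉ (cb b₂ : Set E) :=
        (hcont x hx).eventually ((cb_compact b₂).isClosed.isOpen_compl.mem_nhds hn)
      obtain ⟨k, hk, hk2⟩ := exists_dense_near hx h4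
      exact hk2 (h2 k hk)
  rw [hset]
  borelize E
  have hmp : ∀ k, Measurable (fun c : Code E => c.φ i j (D k)) := fun k => meas_phi i j (D k)
  refine (meas_compact i j (cb_compact b)).inter ?_
  refine MeasurableSet.iInter fun k => ?_
  by_cases hk : D k ∈ (ob b : Set E)
  · have : {c : Code E | D k ∈ (ob b : Set E) → c.φ i j (D k) ∈ (cb b₂ : Set E)} =
        (fun c : Code E => c.φ i j (D k)) ⁻¹' (cb b₂) := by
      ext c
      simp [hk]
    rw [this]
    exact (hmp k) (cb_compact b₂).isClosed.measurableSet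
  · have : {c : Code E | D k ∈ (ob b : Set E) → c.φ i j (D k) ∈ (cb b₂ : Set E)} = univ := by
      ext c
      simp [hk]
    rw [this]
    exact MeasurableSet.univ

theorem SD_meas (i j : ℕ) (b b' : ℕ × ℕ × ℕ) : MeasurableSet (SD i j b b' : Set (Code E)) := by
  set D := TopologicalSpace.denseSeq E with hD
  have hset : (SD i j b b' : Set (Code E)) = {c : Code E | (cb b : Set E) ⊆ c.V i i} ∩
      ({c : Code E | (cb b' : Set E) ⊆ c.V j j} ∩
      ⋃ m : ℕ, ⋂ k, {c : Code E | D k ∈ Metric.thickening (1 / ((m : ℝ) + 1)) (cb b : Set E) →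
        D k ∈ c.V i j → c.φ i j (D k) ∉ Metric.thickening (1 / ((m : ℝ) + 1)) (cb b' : Set E)}) := by
    ext c
    simp only [mem_inter_iff, mem_iInter, mem_ofPred_eq, mem_iUnion]
    constructor
    · rintro ⟨h1, h2, h3⟩
      refine ⟨h1, h2, ?_⟩
      -- compactness of the product
      set U : Set (E × E) := interior {p | ¬ (p.1 ∈ c.V i j ∧ c.φ i j p.1 = p.2)} with hU
      have hsub : (cb b : Set E) ×ˢ (cb b' : Set E) ⊆ U := by
        rintro ⟨x, y⟩ ⟨hx, hy⟩
        rw [hU, mem_interior_iff_mem_nhds]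
        exact c.haus i j x (h1 hx) y (h2 hy) (h3 x hx y hy)
      obtain ⟨δ, hδ, hδU⟩ := ((cb_compact b).prod (cb_compact b')).exists_thickening_subset_open
        isOpen_interior hsub
      obtain ⟨m, hm⟩ := exists_nat_one_div_lt hδ
      refine ⟨m, ?_⟩
      intro k hk hkV hkn
      have h4 : (D k, c.φ i j (D k)) ∈ U := by
        apply hδU
        rw [Metric.mem_thickening_iff] at hk hkn ⊢
        obtain ⟨x, hx, hxk⟩ := hk
        obtain ⟨y, hy, hyk⟩ := hkn
        refine ⟨(x, y), ⟨hx, hy⟩, ?_⟩
        rw [Prod.dist_eq]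
        exact max_lt (hxk.trans hm) (hyk.trans hm)
      exact interior_subset h4 ⟨hkV, rfl⟩
    · rintro ⟨h1, h2, m, h3⟩
      refine ⟨h1, h2, ?_⟩
      rintro x hx y hy ⟨hxV, hxy⟩
      have hpos : (0 : ℝ) < 1 / ((m : ℝ) + 1) := by positivity
      have h4 : ∀ᶠ z in 𝓝 x, z ∈ Metric.thickening (1 / ((m : ℝ) + 1)) (cb b : Set E) ∧
          z ∈ c.V i j ∧ c.φ i j z ∈ Metric.thickening (1 / ((m : ℝ) + 1)) (cb b' : Set E) := by
        have a1 : ∀ᶠ z in 𝓝 x, z ∈ Metric.thickening (1 / ((m : ℝ) + 1)) (cb b : Set E) :=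
          Metric.isOpen_thickening.mem_nhds (Metric.self_subset_thickening hpos _ hx)
        have a2 : ∀ᶠ z in 𝓝 x, c.φ i j z ∈ Metric.thickening (1 / ((m : ℝ) + 1)) (cb b' : Set E) := by
          refine (c.continuousAt hxV).eventually (Metric.isOpen_thickening.mem_nhds ?_)
          rw [hxy]
          exact Metric.self_subset_thickening hpos _ hy
        filter_upwards [a1, a2, (c.isOpen i j).mem_nhds hxV] with z z1 z2 z3
        exact ⟨z1, z3, z2⟩
      obtain ⟨k, _, hk⟩ := exists_dense_near hx h4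
      exact h3 k hk.1 hk.2.1 hk.2.2
  rw [hset]
  borelize E
  have hmp : ∀ k, Measurable (fun c : Code E => c.φ i j (D k)) := fun k => meas_phi i j (D k)
  refine (meas_compact i i (cb_compact b)).inter ((meas_compact j j (cb_compact b')).inter ?_)
  refine MeasurableSet.iUnion fun m => MeasurableSet.iInter fun k => ?_
  by_cases hk : D k ∈ Metric.thickening (1 / ((m : ℝ) + 1)) (cb b : Set E)
  · have : {c : Code E | D k ∈ Metric.thickening (1 / ((m : ℝ) + 1)) (cb b : Set E) →
        D k ∈ c.V i j → c.φ i j (D k) ∉ Metric.thickening (1 / ((m : ℝ) + 1)) (cb b' : Set E)} =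
        {c : Code E | D k ∈ c.V i j}ᶜ ∪ ((fun c : Code E => c.φ i j (D k)) ⁻¹'
          (Metric.thickening (1 / ((m : ℝ) + 1)) (cb b' : Set E)))ᶜ := by
      ext c
      simp only [mem_ofPred_eq, mem_union, mem_compl_iff, mem_preimage]
      tauto
    rw [this]
    exact (meas_mem i j (D k)).compl.union
      ((hmp k) Metric.isOpen_thickening.measurableSet).compl
  · have : {c : Code E | D k ∈ Metric.thickening (1 / ((m : ℝ) + 1)) (cb b : Set E) →
        D k ∈ c.V i j → c.φ i j (D k) ∉ Metric.thickening (1 / ((m : ℝ) + 1)) (cb b' : Set E)} =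
        univ := by
      ext c
      simp only [mem_ofPred_eq, mem_univ, iff_true]
      intro h
      exact absurd h hk
    rw [this]
    exact MeasurableSet.univ

theorem open_meas {A : Set (Code E)} (hA : IsOpen A) : MeasurableSet A := by
  have h1 : borel (Code E) = MeasurableSpace.generateFrom (subC E) :=
    borel_eq_generateFrom_of_subbasis rfl
  have h2 : MeasurableSpace.generateFrom (subC E) ≤ (measC : MeasurableSpace (Code E)) := by
    refine MeasurableSpace.generateFrom_le ?_
    rintro S (⟨p, rfl⟩ | ⟨p, rfl⟩)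
    · exact SA_meas _ _ _ _
    · exact SD_meas _ _ _ _
  have h3 : MeasurableSet[borel (Code E)] A := by
    borelize (Code E)
    exact hA.measurableSet
  rw [h1] at h3
  exact h2 A h3

theorem RR_meas (S : Sym) (x₂ x : Nm) : MeasurableSet {c : Code E | RR c S x₂ x} :=
  open_meas (RR_open S x₂ x)

end Pool.Agent.H655.GM
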