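import Pool.Agent.H655.BK.Half

/-!
Model spaces of topological manifolds.
-/

open Set Filter Topology Metric

namespace Pool.Agent.H655.GM

open Pool.Agent.H655.EK

/-- A model space: a proper metric space with a relative straightening theorem for open embeddings
which are close to the identity. -/
class Mod (X : Type) [MetricSpace X] where
  x0 : X
  clo : ∀ (x : X) (r : ℝ), 0 < r → closedBall x r ⊆ closure (ball x r)
  con : ∀ (x : X) (r : ℝ), IsPreconnected (ball x r)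
  ek : ∀ {U K C N : Set X}, IsOpen U → IsCompact K → K ⊆ U → IsClosed C → IsOpen N → C ⊆ N →
    ∃ N', IsOpen N' ∧ K ⊆ N' ∧ ∃ K', IsCompact K' ∧ K' ⊆ U ∧ ∃ N₁, IsOpen N₁ ∧ C ⊆ N₁ ∧
      ∀ ε > 0, ∃ δ > 0, ∀ g : X → X, OE g U →
        (∀ w ∈ U, dist (g w) w ≤ δ) → (∀ w ∈ U ∩ N, g w = w) →
        ∃ h : X ≃ₜ X, (∀ w, w ∉ K' → h w = w) ∧
          (∀ w ∈ N₁, h w = w) ∧ (∀ w, dist (h w) w ≤ ε) ∧ ∀ w ∈ U ∩ N', g w = h w

export Mod (x0)

instance {X : Type} [MetricSpace X] [Mod X] : Nonempty X := ⟨x0⟩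

/-- Choice of an almost optimal homeomorphism. -/
theorem exists_opt {X : Type} [MetricSpace X] [Mod X] (Good : (X ≃ₜ X) → Prop)
    (hid : (∀ ε > 0, ∃ h : X ≃ₜ X, Good h ∧ ∀ w, dist (h w) w ≤ ε) → Good (Homeomorph.refl X)) :
    ∃ T : X ≃ₜ X, ∀ ε > 0, (∃ h : X ≃ₜ X, Good h ∧ ∀ w, dist (h w) w ≤ ε) →
      Good T ∧ ∀ w, dist (T w) w ≤ 2 * ε := by
  by_cases hall : ∀ ε > 0, ∃ h : X ≃ₜ X, Good h ∧ ∀ w, dist (h w) w ≤ ε
  · refine ⟨Homeomorph.refl X, fun ε hε _ => ⟨hid hall, fun w => ?_⟩⟩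
    have h1 : dist (Homeomorph.refl X w) w = 0 := dist_self w
    rw [h1]
    linarith
  · push Not at hall
    obtain ⟨ε₀, hε₀, hno⟩ := hall
    set S : Set ℝ := {ε | 0 < ε ∧ ∃ h : X ≃ₜ X, Good h ∧ ∀ w, dist (h w) w ≤ ε} with hS
    rcases S.eq_empty_or_nonempty with he | hne
    · refine ⟨Homeomorph.refl X, fun ε hε h => ?_⟩
      exact absurd (show ε ∈ S from ⟨hε, h⟩) (by rw [he]; exact notMem_empty _)
    · have hlow : ∀ ε ∈ S, ε₀ ≤ ε := by
        rintro ε ⟨_, h, hg, hh⟩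
        by_contra hn
        obtain ⟨w, hw⟩ := hno h hg
        linarith [hh w, not_le.1 hn]
      have hc : ε₀ ≤ sInf S := le_csInf hne hlow
      obtain ⟨ε₁, hε₁, hlt⟩ := exists_lt_of_csInf_lt hne
        (show sInf S < 2 * sInf S by linarith)
      obtain ⟨_, h, hg, hh⟩ := hε₁
      refine ⟨h, fun ε hε hex => ⟨hg, fun w => (hh w).trans ?_⟩⟩
      have : sInf S ≤ ε := csInf_le ⟨ε₀, hlow⟩ ⟨hε, hex⟩
      linarith

open Pool.Agent.H655.BK

/-- The half-space is a model space. -/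
noncomputable instance modHS (n : ℕ) [NeZero n] : Mod (EuclideanHalfSpace n) where
  x0 := 0
  clo := by
    intro x r hr y hy
    rw [Metric.mem_closure_iff]
    intro ε hε
    rw [mem_closedBall, dist_HS] at hy
    set t : ℝ := min (1 / 2) (ε / (2 * (r + 1))) with ht
    have ht0 : 0 < t := lt_min (by norm_num) (by positivity)
    have ht1 : t ≤ 1 / 2 := min_le_left _ _
    have ht2 : t * r < ε := by
      have h1 : t ≤ ε / (2 * (r + 1)) := min_le_right _ _
      calc t * r ≤ ε / (2 * (r + 1)) * r := mul_le_mul_of_nonneg_right h1 hr.le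
        _ = ε * (r / (2 * (r + 1))) := by ring
        _ < ε * 1 := by
          refine mul_lt_mul_of_pos_left ?_ hε
          rw [div_lt_one (by positivity)]
          linarith
        _ = ε := mul_one ε
    have hz : 0 ≤ ((1 - t) • y.1 + t • x.1 : EuclideanSpace ℝ (Fin n)) 0 := by
      have h1 : ((1 - t) • y.1 + t • x.1 : EuclideanSpace ℝ (Fin n)) 0 =
          (1 - t) * y.1 0 + t * x.1 0 := rfl
      rw [h1]
      have h2 := y.2
      have h3 := x.2
      have h4 : 0 ≤ 1 - t := by linarith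
      positivity
    refine ⟨⟨(1 - t) • y.1 + t • x.1, hz⟩, ?_, ?_⟩
    · rw [mem_ball, dist_HS]
      show dist ((1 - t) • y.1 + t • x.1) x.1 < r
      rw [dist_eq_norm] at hy ⊢
      have h1 : (1 - t) • y.1 + t • x.1 - x.1 = (1 - t) • (y.1 - x.1) := by
        rw [smul_sub, sub_smul 1 t x.1, one_smul]
        abel
      rw [h1, norm_smul, Real.norm_of_nonneg (by linarith)]
      calc (1 - t) * ‖y.1 - x.1‖ ≤ (1 - t) * r := mul_le_mul_of_nonneg_left hy (by linarith)
        _ < r := by nlinarith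
    · rw [dist_HS]
      show dist y.1 ((1 - t) • y.1 + t • x.1) < ε
      rw [dist_eq_norm] at hy ⊢
      have h1 : y.1 - ((1 - t) • y.1 + t • x.1) = t • (y.1 - x.1) := by
        rw [smul_sub, sub_smul 1 t y.1, one_smul]
        abel
      rw [h1, norm_smul, Real.norm_of_nonneg ht0.le]
      exact (mul_le_mul_of_nonneg_left hy ht0.le).trans_lt ht2
  con := by
    intro x r
    have h1 : IsInducing (fun x : EuclideanHalfSpace n => (x.1 : EuclideanSpace ℝ (Fin n))) :=
      HS_closed.isClosedEmbedding_subtypeVal.isInducing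
    rw [← h1.isPreconnected_image]
    have h2 : (fun x : EuclideanHalfSpace n => (x.1 : EuclideanSpace ℝ (Fin n))) '' ball x r =
        ball x.1 r ∩ {x : EuclideanSpace ℝ (Fin n) | 0 ≤ x 0} := by
      ext y
      constructor
      · rintro ⟨z, hz, rfl⟩
        exact ⟨hz, z.2⟩
      · rintro ⟨hy, hy2⟩
        exact ⟨⟨y, hy2⟩, hy, rfl⟩
    rw [h2]
    exact ((convex_ball _ _).inter EuclideanHalfSpace.convex).isPreconnected
  ek := ek_half

end Pool.Agent.H655.GM
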