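import Pool.Agent.H655.GM.Diff

/-!
Families of near identity local homeomorphisms of the model space.
-/

set_option linter.unusedSectionVars false

open Set Filter Topology

namespace Pool.Agent.H655.GM

open EK (OE)

variable {κ : Type} {E : Type} [MetricSpace E] [ProperSpace E] [Mod E]
variable {l : Filter κ}

/-- Uniform neighbourhood of a compact set. -/
theorem compact_unif {X : Type} [TopologicalSpace X] {S : Set X} (hS : IsCompact S)
    {P : κ × X → Prop} (h : ∀ x ∈ S, ∀ᶠ p in l ×ˢ 𝓝 x, P p) :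
    ∃ N, IsOpen N ∧ S ⊆ N ∧ ∀ᶠ k in l, ∀ x ∈ N, P (k, x) := by
  refine hS.induction_on (p := fun s => ∃ N, IsOpen N ∧ s ⊆ N ∧ ∀ᶠ k in l, ∀ x ∈ N, P (k, x))
    ?_ ?_ ?_ ?_
  · exact ⟨∅, isOpen_empty, Subset.rfl, by simp⟩
  · rintro s t hst ⟨N, h1, h2, h3⟩
    exact ⟨N, h1, hst.trans h2, h3⟩
  · rintro s t ⟨N, h1, h2, h3⟩ ⟨N', h1', h2', h3'⟩
    refine ⟨N ∪ N', h1.union h1', union_subset_union h2 h2', ?_⟩
    filter_upwards [h3, h3'] with k k1 k2 x hx
    rcases hx with hx | hx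
    · exact k1 x hx
    · exact k2 x hx
  · intro x hx
    obtain ⟨W, hWo, hxW, hW⟩ := ev_unif (h x hx)
    exact ⟨W, mem_nhdsWithin_of_mem_nhds (hWo.mem_nhds hxW), W, hWo, Subset.rfl, hW⟩

/-- Families converging to the identity are eventually injective on compact sets. -/
theorem compact_inj {S : Set E} (hS : IsCompact S) {f : κ → E → E}
    (hf : ∀ y ∈ S, CS l f id y) : ∀ᶠ k in l, InjOn (f k) S := by
  have h1 : ∀ x ∈ S, ∀ᶠ p in l ×ˢ 𝓝 x, ∀ y ∈ S, f p.1 p.2 = f p.1 y → p.2 = y := by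
    intro x hx
    have h2 := compact_ev (l := l ×ˢ 𝓝 x)
      (P := fun p : (κ × E) × E => f p.1.1 p.1.2 = f p.1.1 p.2 → p.1.2 = p.2) hS (by
        intro y hy
        by_cases hxy : x = y
        · subst hxy
          exact (hf x hx).inj
        · have hne : ∀ᶠ p in (𝓝 x) ×ˢ (𝓝 y), p.1 ≠ p.2 := by
            obtain ⟨A, B, hA, hB, hxA, hyB, hAB⟩ := t2_separation hxy
            filter_upwards [prod_mem_prod (hA.mem_nhds hxA) (hB.mem_nhds hyB)] with p hp h
            exact Set.disjoint_left.1 hAB hp.1 (h ▸ hp.2)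
          have h3 : Tendsto (fun p : (κ × E) × E => f p.1.1 p.1.2) ((l ×ˢ 𝓝 x) ×ˢ 𝓝 y) (𝓝 x) :=
            (hf x hx).val.comp tendsto_fst
          have h4 : Tendsto (fun p : (κ × E) × E => f p.1.1 p.2) ((l ×ˢ 𝓝 x) ×ˢ 𝓝 y) (𝓝 y) := by
            have h5 : Tendsto (fun p : (κ × E) × E => (p.1.1, p.2)) ((l ×ˢ 𝓝 x) ×ˢ 𝓝 y)
              (l ×ˢ 𝓝 y) := (tendsto_fst.comp tendsto_fst).prodMk tendsto_snd
            exact (hf y hy).val.comp h5
          filter_upwards [(h3.prodMk h4).eventually hne] with p hp h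
          exact absurd h hp)
    filter_upwards [h2] with p hp y hy
    exact (hp y hy).self_of_nhds
  filter_upwards [compact_ev (P := fun p : κ × E => ∀ y ∈ S, f p.1 p.2 = f p.1 y → p.2 = y) hS h1]
    with k hk x hx y hy hxy
  exact (hk x hx).self_of_nhds y hy hxy

/-- Families converging to the identity near a compact set are eventually open embeddings. -/
theorem compact_OE {S U : Set E} (hS : IsCompact S) (hU : IsOpen U) (hUS : U ⊆ S)
    {f : κ → E → E} (hf : ∀ y ∈ S, CS l f id y) : ∀ᶠ k in l, OE (f k) U := by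
  have h1 := compact_ev (l := l) (P := fun p : κ × E => SN (f p.1) p.2) hS
    (fun y hy => (hf y hy).ev)
  filter_upwards [h1, compact_inj hS hf] with k k1 k2
  refine EK.oe_local (k2.mono hUS) ?_
  intro x hx
  obtain ⟨W, hxW, hW⟩ := (k1 x (hUS hx)).self_of_nhds
  exact ⟨W ∩ U, ⟨hxW, hx⟩, inter_subset_right, hW.mono (hW.op.inter hU) inter_subset_left⟩

theorem compact_close {S : Set E} (hS : IsCompact S) {f : κ → E → E}
    (hf : ∀ y ∈ S, CS l f id y) {ε : ℝ} (hε : 0 < ε) : ∀ᶠ k in l, ∀ y ∈ S, dist (f k y) y ≤ ε := by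
  have h1 := compact_ev (l := l) (P := fun p : κ × E => dist (f p.1 p.2) p.2 ≤ ε) hS (by
    intro y hy
    have h3 : Tendsto (fun p : κ × E => p.2) (l ×ˢ 𝓝 y) (𝓝 y) := tendsto_snd
    have h4 := (hf y hy).val.dist h3
    simp only [id, dist_self] at h4
    exact h4.eventually (ge_mem_nhds hε))
  filter_upwards [h1] with k hk y hy
  exact (hk y hy).self_of_nhds

/-- Homeomorphism `T` of `E` with inverse `T'`, the identity off `S`. -/
structure DE (S : Set E) (T T' : E → E) : Prop where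
  sm : Continuous T
  sm' : Continuous T'
  left : ∀ y, T' (T y) = y
  right : ∀ y, T (T' y) = y
  off : ∀ y, y ∉ S → T y = y

theorem DE.off' {S : Set E} {T T' : E → E} (h : DE S T T') : ∀ y, y ∉ S → T' y = y := by
  intro y hy
  have h1 := h.left y
  rwa [h.off y hy] at h1

theorem DE.symm {S : Set E} {T T' : E → E} (h : DE S T T') : DE S T' T :=
  ⟨h.sm', h.sm, h.right, h.left, h.off'⟩

theorem DE.mono {S S' : Set E} {T T' : E → E} (h : DE S T T') (hS : S ⊆ S') : DE S' T T' :=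
  ⟨h.sm, h.sm', h.left, h.right, fun y hy => h.off y fun hn => hy (hS hn)⟩

theorem DE.sn {S : Set E} {T T' : E → E} (h : DE S T T') (y : E) : SN T y := by
  have : T = (⟨⟨T, T', h.left, h.right⟩, h.sm, h.sm'⟩ : E ≃ₜ E) := rfl
  rw [this]
  exact SN_homeo _

theorem CS_homeo {T : κ → E ≃ₜ E} (h : ∀ ε > 0, ∀ᶠ k in l, ∀ w, dist (T k w) w ≤ ε) (y : E) :
    CS l (fun k => T k) id y := by
  refine ⟨⟨univ, mem_univ _, EK.oe_id isOpen_univ,
    Filter.Eventually.of_forall fun k => EK.oe_homeo (T k) isOpen_univ⟩, ?_⟩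
  rw [Metric.tendsto_nhds]
  intro ε hε
  filter_upwards [ev_fst (h (ε / 2) (half_pos hε)),
    ev_snd (Metric.ball_mem_nhds y (half_pos hε))] with p h1 h2
  have h3 := dist_triangle (T p.1 p.2) p.2 y
  have h4 : dist p.2 y < ε / 2 := h2
  have h5 := h1 p.2
  show dist (T p.1 p.2) y < ε
  linarith

/-- The straightening theorem for families. -/
theorem near_id {U K C : Set E} (hU : IsOpen U) (hK : IsCompact K)
    (hKU : K ⊆ U) (hC : IsClosed C) {f : κ → E → E} (hf : ∀ y ∈ U, CS l f id y)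
    (hfC : ∀ y ∈ C, y ∈ U → ∀ᶠ p in l ×ˢ 𝓝 y, f p.1 p.2 = p.2) :
    ∃ K', IsCompact K' ∧ K' ⊆ U ∧ ∃ T T' : κ → E → E, (∀ y, CS l T id y) ∧ (∀ y, CS l T' id y) ∧
      (∀ᶠ k in l, DE K' (T k) (T' k)) ∧
      (∀ y ∈ K, ∀ᶠ p in l ×ˢ 𝓝 y, T p.1 p.2 = f p.1 p.2) ∧
      ∀ y ∈ C, ∀ᶠ p in l ×ˢ 𝓝 y, T p.1 p.2 = p.2 := by
  obtain ⟨U₀, hU₀, hKU₀, hcl, hcomp⟩ := exists_open_between_and_isCompact_closure hK hU hKU
  have hCc : IsCompact (C ∩ closure U₀) := hcomp.inter_left hC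
  obtain ⟨N₀, hN₀, hCN₀, hN₀id⟩ := compact_unif (P := fun p : κ × E => f p.1 p.2 = p.2) hCc
    (fun y hy => hfC y hy.1 (hcl hy.2))
  set N : Set E := N₀ ∪ (closure U₀)ᶜ with hN
  have hNo : IsOpen N := hN₀.union isClosed_closure.isOpen_compl
  have hCN : C ⊆ N := by
    intro y hy
    by_cases h : y ∈ closure U₀
    · exact Or.inl (hCN₀ ⟨hy, h⟩)
    · exact Or.inr h
  obtain ⟨N', hN', hKN', K', hK', hK'U, N₁, hN₁, hCN₁, H⟩ := Mod.ek hU₀ hK hKU₀ hC hNo hCN
  set Good : κ → (E ≃ₜ E) → Prop := fun k h => (∀ w, w ∉ K' → h w = w) ∧ (∀ w ∈ N₁, h w = w) ∧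
    ∀ w ∈ U₀ ∩ N', f k w = h w with hGood
  have hopt : ∀ k, ∃ T : E ≃ₜ E, ∀ ε > 0, (∃ h : E ≃ₜ E, Good k h ∧ ∀ w, dist (h w) w ≤ ε) →
      Good k T ∧ ∀ w, dist (T w) w ≤ 2 * ε := by
    intro k
    refine exists_opt (Good k) ?_
    intro hall
    refine ⟨fun _ _ => rfl, fun _ _ => rfl, ?_⟩
    intro w hw
    show f k w = w
    have h1 : ∀ ε > 0, dist (f k w) w ≤ ε := by
      intro ε hε
      obtain ⟨h, hg, hh⟩ := hall ε hε
      rw [hg.2.2 w hw]
      exact hh w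
    have h2 : dist (f k w) w ≤ 0 := le_of_forall_pos_le_add fun ε hε => by simpa using h1 ε hε
    exact dist_le_zero.1 h2
  choose T hT using hopt
  have hOE := compact_OE hcomp hU₀ subset_closure (fun y hy => hf y (hcl hy))
  have hev : ∀ ε > 0, ∀ᶠ k in l, Good k (T k) ∧ ∀ w, dist (T k w) w ≤ ε := by
    intro ε hε
    obtain ⟨δ, hδ, H⟩ := H (ε / 2) (half_pos hε)
    filter_upwards [hOE, compact_close hcomp (fun y hy => hf y (hcl hy)) hδ, hN₀id] with k k1 k2 k3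
    have h1 := hT k (ε / 2) (half_pos hε) (by
      obtain ⟨h, ha, hb, hc, hd⟩ := H (f k) k1 (fun w hw => k2 w (subset_closure hw)) (by
        rintro w ⟨hw1, hw2⟩
        rcases hw2 with hw2 | hw2
        · exact k3 w hw2
        · exact absurd (subset_closure hw1) hw2)
      exact ⟨h, ⟨ha, hb, hd⟩, hc⟩)
    refine ⟨h1.1, fun w => (h1.2 w).trans (by linarith)⟩
  have hgood : ∀ᶠ k in l, Good k (T k) := by
    filter_upwards [hev 1 one_pos] with k hk
    exact hk.1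
  refine ⟨K', hK', hK'U.trans (subset_closure.trans hcl), fun k => T k, fun k => (T k).symm,
    ?_, ?_, ?_, ?_, ?_⟩
  · refine CS_homeo fun ε hε => ?_
    filter_upwards [hev ε hε] with k hk
    exact hk.2
  · refine CS_homeo (T := fun k => (T k).symm) fun ε hε => ?_
    filter_upwards [hev ε hε] with k hk w
    have := hk.2 ((T k).symm w)
    rwa [(T k).apply_symm_apply, dist_comm] at this
  · filter_upwards [hgood] with k hk
    exact ⟨(T k).continuous, (T k).symm.continuous, (T k).symm_apply_apply,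
      (T k).apply_symm_apply, hk.1⟩
  · intro y hy
    filter_upwards [ev_fst hgood, ev_snd ((hU₀.inter hN').mem_nhds ⟨hKU₀ hy, hKN' hy⟩)] with p h1 h2
    exact (h1.2.2 p.2 h2).symm
  · intro y hy
    filter_upwards [ev_fst hgood, ev_snd (hN₁.mem_nhds (hCN₁ hy))] with p h1 h2
    exact h1.2.1 p.2 h2

end Pool.Agent.H655.GM
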