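import Pool.Agent.H655.GM.LocTrans

/-!
Transfer: if the codes `c k` converge to `c₀`, then compact pieces of the manifold coded by `c₀` embed
into the manifolds coded by `c k`, by maps converging to the identity.
-/

set_option linter.unusedSectionVars false

open Set Filter Topology

namespace Pool.Agent.H655.GM

variable {κ : Type} {E : Type} [MetricSpace E] [ProperSpace E] [Mod E]
variable {l : Filter κ}

theorem compact_closed (c : Code E) {i : ℕ} {S : Set E} (hS : IsCompact S)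
    (hSV : S ⊆ c.V i i) {w : Pt E} (hw : w ∈ M c) (h : ∀ y ∈ S, w ≠ cls c i y) :
    ∀ᶠ w' in nh c w, ∀ y ∈ S, w' ≠ cls c i y := by
  have h1 := compact_ev (l := nh c w) (P := fun p : Pt E × E => p.1 ≠ cls c i p.2) hS (by
    intro y hy
    have h2 := sep c hw (cls_mem_M (hSV hy)) (h y hy)
    rw [nh_cls (hSV hy), Filter.prod_map_right, eventually_map] at h2
    exact h2)
  filter_upwards [h1] with w' hw' y hy
  exact (hw' y hy).self_of_nhds

theorem nhp_nh {d : Code E} {z : Pt E} (hz : z ∈ M d) {P : κ × Pt E → Prop}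
    (h : ∀ᶠ p in l ×ˢ nh d z, P p) : ∀ᶠ z' in nh d z, ∀ᶠ p in l ×ˢ nh d z', P p := by
  rw [Filter.eventually_prod_iff] at h
  obtain ⟨pa, ha, pb, hb, h⟩ := h
  filter_upwards [nh_ev hz hb] with z' hz'
  rw [Filter.eventually_prod_iff]
  exact ⟨pa, ha, pb, hz', h⟩

open Classical in
/-- The modified map. -/
noncomputable def glue (c₀ ck : Code E) (i : ℕ) (U : Set E) (w : E → E) (ι : Pt E → Pt E)
    (z : Pt E) : Pt E :=
  if ∃ y ∈ U, z = cls c₀ i y then cls ck i (w (coord i z)) else ι z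

theorem transfer {c : κ → Code E} {c₀ : Code E} (hc : CConv l c c₀) (t : List (ℕ × ℕ × ℕ))
    (ht : valid c₀ t) :
    ∃ ι : κ → Pt E → Pt E, ∀ z ∈ K c₀ t, ∀ᶠ z' in nh c₀ z,
      MC l (fun _ => c₀) c₀ c c₀ ι id z' := by
  induction t with
  | nil =>
    refine ⟨fun _ => id, ?_⟩
    rintro z ⟨b, hb, _⟩
    simp at hb
  | cons a t ih =>
    have ht' : valid c₀ t := fun b hb => ht b (List.mem_cons_of_mem a hb)
    have ha : (cb a : Set E) ⊆ c₀.V a.1 a.1 := ht a List.mem_cons_self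
    obtain ⟨ι, hι⟩ := ih ht'
    set i := a.1 with hi
    obtain ⟨δ, hδ, hδV⟩ := (cb_compact (E := E) a).exists_cthickening_subset_open
      (c₀.isOpen i i) ha
    set S : Set E := Metric.cthickening δ (cb a) with hSdef
    set U : Set E := Metric.thickening δ (cb a) with hUdef
    have hS : IsCompact S := (cb_compact a).cthickening
    have hUS : U ⊆ S := Metric.thickening_subset_cthickening _ _
    have hUo : IsOpen U := Metric.isOpen_thickening
    have haU : (cb a : Set E) ⊆ U := Metric.self_subset_thickening hδ _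
    have hSV : S ⊆ c₀.V i i := hδV
    set A : Set E := {y | y ∈ c₀.V i i ∧ ∀ᶠ y' in 𝓝 y,
      MC l (fun _ => c₀) c₀ c c₀ ι id (cls c₀ i y')} with hAdef
    have hAo : IsOpen A := by
      rw [isOpen_iff_eventually]
      rintro y ⟨hy1, hy2⟩
      filter_upwards [(c₀.isOpen i i).mem_nhds hy1, hy2.eventually_nhds] with y' a1 a2
      exact ⟨a1, a2⟩
    set C : Set E := {y | y ∈ S ∧ cls c₀ i y ∈ K c₀ t} with hCdef
    have hCA : C ⊆ A := by
      rintro y ⟨hy1, hy2⟩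
      refine ⟨hSV hy1, ?_⟩
      have h1 := hι _ hy2
      rwa [ev_nh (hSV hy1)] at h1
    have hCc : IsClosed C := by
      rw [← isOpen_compl_iff, isOpen_iff_eventually]
      intro y hy
      by_cases hyS : y ∈ S
      · have h1 : cls c₀ i y ∉ K c₀ t := fun h => hy ⟨hyS, h⟩
        have h2 := K_closed ht' (cls_mem_M (hSV hyS)) h1
        rw [ev_nh (hSV hyS)] at h2
        filter_upwards [h2] with y' hy'
        rintro ⟨_, h3⟩
        exact hy' h3
      · filter_upwards [hS.isClosed.isOpen_compl.mem_nhds hyS] with y' hy'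
        rintro ⟨h3, _⟩
        exact hy' h3
    have hCcomp : IsCompact C := hS.of_isClosed_subset hCc (fun y hy => hy.1)
    set u : κ → E → E := fun k => rp (ι k) c₀ i i with hu
    have huA : ∀ y ∈ A, MK l (fun _ => c₀) c₀ c c₀ ι id (i, y) i := by
      rintro y ⟨hy1, hy2⟩
      have h1 : MC l (fun _ => c₀) c₀ c c₀ ι id (cls c₀ i y) := hy2.self_of_nhds
      have h2 : (i, y) ∈ (id (cls c₀ i y) : Pt E) := mem_cls_self hy1
      exact h1.at (CConv.const l c₀) hc (mem_cls_self hy1) h2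
    have hrpid : ∀ y ∈ c₀.V i i, ∀ᶠ y' in 𝓝 y, rp id c₀ i i y' = id y' := by
      intro y hy
      filter_upwards [(c₀.isOpen i i).mem_nhds hy] with y' hy'
      exact rp_eq hy' rfl
    have hucs : ∀ y ∈ A, CS l u id y := by
      intro y hy
      have h1 : CS l (fun k => rp (ι k) c₀ i i) (rp id c₀ i i) y := (huA y hy).cs
      exact h1.congr (Filter.Eventually.of_forall fun _ => rfl) (hrpid y hy.1)
    obtain ⟨_, _, _, w, _, hw, _, _, hwu, _⟩ := near_id (l := l) hAo hCcomp hCA isClosed_empty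
      (f := u) hucs (fun y hy => absurd hy (notMem_empty y))
    refine ⟨fun k => glue c₀ (c k) i U (w k) (ι k), ?_⟩
    have hglueU : ∀ k, ∀ y ∈ U, glue c₀ (c k) i U (w k) (ι k) (cls c₀ i y) =
        cls (c k) i (w k y) := by
      intro k y hy
      unfold glue
      rw [if_pos ⟨y, hy, rfl⟩, coord_cls (hSV (hUS hy))]
    have hglueoff : ∀ k z, (∀ y ∈ U, z ≠ cls c₀ i y) → glue c₀ (c k) i U (w k) (ι k) z =
        ι k z := by
      intro k z hz
      unfold glue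
      rw [if_neg]
      rintro ⟨y, hy, h⟩
      exact hz y hy h
    have hMCU : ∀ y ∈ U, MC l (fun _ => c₀) c₀ c c₀ (fun k => glue c₀ (c k) i U (w k) (ι k)) id
        (cls c₀ i y) := by
      intro y hy
      have h1 : MK l (fun _ => c₀) c₀ c c₀ (fun k => glue c₀ (c k) i U (w k) (ι k)) id (i, y) i := by
        refine MK.of hc (hSV (hUS hy)) w id (hSV (hUS hy)) ?_ ?_ (hw y)
        · exact Filter.Eventually.of_forall fun x => rfl
        · filter_upwards [ev_snd (l := l) (hUo.mem_nhds hy)] with p hp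
          exact hglueU p.1 p.2 hp
      exact h1.mc
    -- the two cases
    rintro z ⟨b, hb, x, hx, rfl⟩
    rcases List.mem_cons.1 hb with h | h
    · subst h
      rw [ev_nh (hSV (hUS (haU hx)))]
      filter_upwards [hUo.mem_nhds (haU hx)] with y hy
      exact hMCU y hy
    · have hzK : cls c₀ b.1 x ∈ K c₀ t := ⟨b, h, x, hx, rfl⟩
      set z := cls c₀ b.1 x with hz
      have hzM : z ∈ M c₀ := K_sub_M ht' hzK
      have heq : ∀ᶠ p in l ×ˢ nh c₀ z, ι p.1 p.2 = glue c₀ (c p.1) i U (w p.1) (ι p.1) p.2 := by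
        by_cases hzS : ∃ y ∈ S, z = cls c₀ i y
        · obtain ⟨y, hy, hzy⟩ := hzS
          have hyC : y ∈ C := ⟨hy, by rw [← hzy]; exact hzK⟩
          have hyA := hCA hyC
          rw [hzy, evp_nh (hSV hy)]
          filter_upwards [(huA y hyA).ev, hwu y hyC,
            ev_snd ((c₀.isOpen i i).mem_nhds (hSV hy))] with p a1 a2 a3
          by_cases hpU : p.2 ∈ U
          · rw [hglueU p.1 p.2 hpU, a2]
            exact a1.1
          · rw [hglueoff]
            intro y' hy' h3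
            exact hpU (by rw [cls_inj a3 (hSV (hUS hy')) h3]; exact hy')
        · have h1 : ∀ y ∈ S, z ≠ cls c₀ i y := fun y hy h => hzS ⟨y, hy, h⟩
          filter_upwards [evp_snd (l := l) (compact_closed c₀ hS hSV hzM h1)] with p hp
          rw [hglueoff]
          exact fun y hy => hp y (hUS hy)
      filter_upwards [hι z hzK, nhp_nh hzM heq] with z' a1 a2
      exact MC.congr hc a1 a2 (Filter.Eventually.of_forall fun _ => rfl)

variable {d : Code E} {c : κ → Code E} {c₀ : Code E} {e₀ : Pt E → Pt E} {e : κ → Pt E → Pt E}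

/-- Convergence to a local diffeomorphism. -/
theorem MC.ld (hc : CConv l c c₀) {z : Pt E} (h : MC l (fun _ => d) d c c₀ e e₀ z) :
    ∀ᶠ p in l ×ˢ nh d z, LD d (c p.1) (e p.1) p.2 := by
  obtain ⟨q, hq⟩ := exists_mem h.1
  obtain ⟨q', hq'⟩ := exists_mem h.mem_tgt
  have h1 := h.at (CConv.const l d) hc hq hq'
  have hq2 := (mem_iff h.1 q).1 hq
  have h4 : ∀ᶠ p in l ×ˢ nh d (cls d q.1 q.2), LD d (c p.1) (e p.1) p.2 := by
    rw [evp_nh hq2.1]
    filter_upwards [ev_ev h1.ev, h1.cs.ev, ev_snd ((d.isOpen q.1 q.1).mem_nhds hq2.1)]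
      with p a2 a3 a4
    have h5 : LK d (c p.1) (e p.1) (q.1, p.2) q'.1 := ⟨a4, a2, a3⟩
    exact h5.ld
  rwa [← hq2.2] at h4

theorem transfer_inj (hc : CConv l c c₀) {ι : κ → Pt E → Pt E} {z z' : Pt E}
    (h : MC l (fun _ => c₀) c₀ c c₀ ι id z) (h' : MC l (fun _ => c₀) c₀ c c₀ ι id z') :
    ∀ᶠ p in (l ×ˢ nh c₀ z) ×ˢ nh c₀ z', ι p.1.1 p.1.2 = ι p.1.1 p.2 → p.1.2 = p.2 := by
  by_cases hzz : z = z'
  · subst hzz
    obtain ⟨q, hq⟩ := exists_mem h.1
    have h1 := h.at (CConv.const l c₀) hc hq (q' := q) hq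
    have hq2 := (mem_iff h.1 q).1 hq
    have h3 := h1.cs.inj
    have h4 : Tendsto (fun p : (κ × E) × E => (p.1.1, p.2)) ((l ×ˢ 𝓝 q.2) ×ˢ 𝓝 q.2)
        (l ×ˢ 𝓝 q.2) := (tendsto_fst.comp tendsto_fst).prodMk tendsto_snd
    rw [hq2.2, nh_cls hq2.1, Filter.prod_map_right, Filter.prod_map_right,
      Filter.prod_map_left, Filter.map_map, eventually_map]
    filter_upwards [h3, tendsto_fst.eventually h1.ev, h4.eventually h1.ev] with p a1 a2 a3
    intro heq
    have heq' : ι p.1.1 (cls c₀ q.1 p.1.2) = ι p.1.1 (cls c₀ q.1 p.2) := heq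
    rw [a2.1, a3.1] at heq'
    have h5 : p.1.2 = p.2 := a1 (cls_inj a2.2 a3.2 heq')
    show cls c₀ q.1 p.1.2 = cls c₀ q.1 p.2
    rw [h5]
  · obtain ⟨q, hq⟩ := exists_mem h.1
    obtain ⟨q', hq'⟩ := exists_mem h'.1
    have h1 := h.at (CConv.const l c₀) hc hq (q' := q) hq
    have h1' := h'.at (CConv.const l c₀) hc hq' (q' := q') hq'
    have hq2 := (mem_iff h.1 q).1 hq
    have hq2' := (mem_iff h'.1 q').1 hq'
    have hL := h1.cs.lift
    have hL' := h1'.cs.lift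
    rw [h.rp_eq hq (q' := q) hq] at hL
    rw [h'.rp_eq hq' (q' := q') hq'] at hL'
    have hne : ¬ (q.2 ∈ c₀.V q.1 q'.1 ∧ c₀.φ q.1 q'.1 q.2 = q'.2) := by
      intro h2
      apply hzz
      rw [hq2.2, hq2'.2, cls_eq_iff hq2'.1]
      exact h2
    have h2 := hc.haus q.1 q'.1 q.2 hq2.1 q'.2 hq2'.1 hne
    rw [hq2.2, hq2'.2, nh_cls hq2.1, nh_cls hq2'.1, Filter.prod_map_right, Filter.prod_map_right,
      Filter.prod_map_left, Filter.map_map, eventually_map]
    have h3 : Tendsto (fun p : (κ × E) × E => (p.1.1, (rp (ι p.1.1) c₀ q.1 q.1 p.1.2,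
        rp (ι p.1.1) c₀ q'.1 q'.1 p.2))) ((l ×ˢ 𝓝 q.2) ×ˢ 𝓝 q'.2) (l ×ˢ 𝓝 (q.2, q'.2)) := by
      rw [nhds_prod_eq]
      refine (tendsto_fst.comp tendsto_fst).prodMk ?_
      refine Tendsto.prodMk ?_ ?_
      · exact (tendsto_snd.comp hL).comp tendsto_fst
      · have h4 : Tendsto (fun p : (κ × E) × E => (p.1.1, p.2)) ((l ×ˢ 𝓝 q.2) ×ˢ 𝓝 q'.2)
            (l ×ˢ 𝓝 q'.2) := (tendsto_fst.comp tendsto_fst).prodMk tendsto_snd
        exact (tendsto_snd.comp hL').comp h4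
    have h4 : Tendsto (fun p : (κ × E) × E => (p.1.1, p.2)) ((l ×ˢ 𝓝 q.2) ×ˢ 𝓝 q'.2)
        (l ×ˢ 𝓝 q'.2) := (tendsto_fst.comp tendsto_fst).prodMk tendsto_snd
    filter_upwards [h3.eventually h2, tendsto_fst.eventually h1.ev, h4.eventually h1'.ev] with
      p a1 a2 a3
    intro heq
    exfalso
    apply a1
    have heq' : ι p.1.1 (cls c₀ q.1 p.1.2) = ι p.1.1 (cls c₀ q'.1 p.2) := heq
    rw [a2.1, a3.1] at heq'
    exact (cls_eq_iff a3.2).1 heq'

theorem transfer_emb (hc : CConv l c c₀) {t : List (ℕ × ℕ × ℕ)} (ht : valid c₀ t) :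
    ∃ ι : κ → Pt E → Pt E, (∀ z ∈ K c₀ t, MC l (fun _ => c₀) c₀ c c₀ ι id z) ∧
      ∀ᶠ k in l, InjOn (ι k) (K c₀ t) ∧ ∀ z ∈ K c₀ t, LD c₀ (c k) (ι k) z := by
  obtain ⟨ι, hι⟩ := transfer hc t ht
  have hι' : ∀ z ∈ K c₀ t, MC l (fun _ => c₀) c₀ c c₀ ι id z := fun z hz =>
    nh_self (K_sub_M ht hz) (hι z hz)
  refine ⟨ι, hι', ?_⟩
  have h1 := K_ev' (l := l) (P := fun p : κ × Pt E => LD c₀ (c p.1) (ι p.1) p.2) ht
    (fun z hz => (hι' z hz).ld hc)
  have h2 : ∀ z ∈ K c₀ t, ∀ᶠ p in l ×ˢ nh c₀ z, ∀ z' ∈ K c₀ t,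
      ι p.1 p.2 = ι p.1 z' → p.2 = z' := by
    intro z hz
    exact K_ev' (l := l ×ˢ nh c₀ z) (P := fun p : (κ × Pt E) × Pt E =>
      ι p.1.1 p.1.2 = ι p.1.1 p.2 → p.1.2 = p.2) ht
      (fun z' hz' => transfer_inj hc (hι' z hz) (hι' z' hz'))
  have h3 := K_ev' (l := l) (P := fun p : κ × Pt E => ∀ z' ∈ K c₀ t,
      ι p.1 p.2 = ι p.1 z' → p.2 = z') ht h2
  filter_upwards [h1, h3] with k a1 a2
  exact ⟨fun z hz z' hz' h => a2 z hz z' hz' h, a1⟩

end Pool.Agent.H655.GM
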